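import Pool.Agent.W973.IP.FDefs

/-!
# Isolated points (project IP), part PH: polynomial time for `hT` and `dhT`
-/

set_option autoImplicit false

namespace Pool.Agent.W193.IP

open Pool.Agent.W973.IP Pool.Agent.NPC Pool.Agent.NPC.ER Pool.Agent.NPC.H612

section

variable {α : Type} [TEnc α]

theorem poly_npair {a b : α → ℕ} (ha : NPC.Poly a) (hb : NPC.Poly b) :
    NPC.Poly (fun x => Nat.pair (a x) (b x)) := by
  unfold Nat.pair
  exact NPC.Poly.ite (NPC.Poly.decide_lt ha hb) (NPC.Poly.add (NPC.Poly.mul hb hb) ha)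
    (NPC.Poly.add (NPC.Poly.add (NPC.Poly.mul ha ha) ha) hb)

theorem poly_nm (ty : ℕ) {i j : α → ℕ} (hi : NPC.Poly i) (hj : NPC.Poly j) :
    NPC.Poly (fun x => nm ty (i x) (j x)) :=
  NPC.Poly.add (NPC.Poly.mul (NPC.Poly.const 16) (poly_npair hi hj)) (NPC.Poly.const ty)

theorem poly_mixT {E : α → List ℕ} {S : α → List ER.Con} {wn : α → ℕ → ℕ} {i : α → ℕ}
    (hE : NPC.Poly E) (hS : NPC.Poly S) (hw : NPC.Poly (fun q : α × ℕ => wn q.1 q.2)) (hi : NPC.Poly i) :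
    NPC.Poly (fun a => mixT (E a) (S a) (wn a) (i a)) := by
  unfold mixT
  have hx : NPC.Poly (fun a => (varsOf (S a)).idxOf (i a)) := poly_idxOf (poly_varsOf hS) hi
  exact NPC.Poly.ite (NPC.Poly.decide_eq (poly_isE hE hi) (NPC.Poly.const true))
    (poly_tvar (poly_nm 3 hx (NPC.Poly.const 0))) (poly_tvar (hw.comp (NPC.Poly.pair NPC.Poly.id hx)))

theorem conT_eq (E : List ℕ) (S : List ER.Con) (wn : ℕ → ℕ) (c : ER.Con) : conT E S wn c =
    if c.code.1 = 0 then Tm.add (mixT E S wn c.code.2.1) (Tm.neg Tm.one)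
    else if c.code.1 = 1 then Tm.add (Tm.add (mixT E S wn c.code.2.1) (mixT E S wn c.code.2.2.1))
      (Tm.neg (mixT E S wn c.code.2.2.2))
    else Tm.add (Tm.mul (mixT E S wn c.code.2.1) (mixT E S wn c.code.2.2.1))
      (Tm.neg (mixT E S wn c.code.2.2.2)) := by
  cases c <;> rfl

theorem poly_conT {E : α → List ℕ} {S : α → List ER.Con} {wn : α → ℕ → ℕ} {c : α → ER.Con}
    (hE : NPC.Poly E) (hS : NPC.Poly S) (hw : NPC.Poly (fun q : α × ℕ => wn q.1 q.2)) (hc : NPC.Poly c) :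
    NPC.Poly (fun a => conT (E a) (S a) (wn a) (c a)) := by
  simp only [conT_eq]
  have h0 := poly_con_code hc
  have m1 := poly_mixT hE hS hw (NPC.Poly.fst (NPC.Poly.snd h0))
  have m2 := poly_mixT hE hS hw (NPC.Poly.fst (NPC.Poly.snd (NPC.Poly.snd h0)))
  have m3 := poly_mixT hE hS hw (NPC.Poly.snd (NPC.Poly.snd (NPC.Poly.snd h0)))
  exact NPC.Poly.ite (NPC.Poly.decide_eq (NPC.Poly.fst h0) (NPC.Poly.const 0))
    (poly_tadd m1 (NPC.Poly.const _))
    (NPC.Poly.ite (NPC.Poly.decide_eq (NPC.Poly.fst h0) (NPC.Poly.const 1))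
      (poly_tadd (poly_tadd m1 m2) (poly_tneg m3))
      (poly_tadd (poly_tmul m1 m2) (poly_tneg m3)))

theorem poly_oneT {b : α → Bool} (hb : NPC.Poly b) : NPC.Poly (fun a => oneT (b a)) := by
  unfold oneT
  exact NPC.Poly.ite (NPC.Poly.decide_bool hb) (NPC.Poly.const _) (NPC.Poly.const _)

theorem poly_isB {E : α → List ℕ} {S : α → List ER.Con} (b : Bool) {t i : α → ℕ}
    (hE : NPC.Poly E) (hS : NPC.Poly S) (ht : NPC.Poly t) (hi : NPC.Poly i) :
    NPC.Poly (fun a => isB (E a) (S a) b (t a) (i a)) := by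
  unfold isB
  have hx : NPC.Poly (fun a => (varsOf (S a)).idxOf (i a)) := poly_idxOf (poly_varsOf hS) hi
  exact NPC.Poly.and (NPC.Poly.decide_eq (poly_isE hE hi) (NPC.Poly.const b)) (NPC.Poly.decide_eq hx ht)

theorem dconT_eq (E : List ℕ) (S : List ER.Con) (wn : ℕ → ℕ) (b : Bool) (t : ℕ) (c : ER.Con) :
    dconT E S wn b t c =
    if c.code.1 = 0 then oneT (isB E S b t c.code.2.1)
    else if c.code.1 = 1 then Tm.add (Tm.add (oneT (isB E S b t c.code.2.1))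
      (oneT (isB E S b t c.code.2.2.1))) (Tm.neg (oneT (isB E S b t c.code.2.2.2)))
    else Tm.add (Tm.add (Tm.mul (oneT (isB E S b t c.code.2.1)) (mixT E S wn c.code.2.2.1))
      (Tm.mul (mixT E S wn c.code.2.1) (oneT (isB E S b t c.code.2.2.1))))
      (Tm.neg (oneT (isB E S b t c.code.2.2.2))) := by
  cases c <;> rfl

theorem poly_dconT {E : α → List ℕ} {S : α → List ER.Con} {wn : α → ℕ → ℕ} (b : Bool)
    {t : α → ℕ} {c : α → ER.Con}
    (hE : NPC.Poly E) (hS : NPC.Poly S) (hw : NPC.Poly (fun q : α × ℕ => wn q.1 q.2)) (ht : NPC.Poly t)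
    (hc : NPC.Poly c) : NPC.Poly (fun a => dconT (E a) (S a) (wn a) b (t a) (c a)) := by
  simp only [dconT_eq]
  have h0 := poly_con_code hc
  have m1 := poly_mixT hE hS hw (NPC.Poly.fst (NPC.Poly.snd h0))
  have m2 := poly_mixT hE hS hw (NPC.Poly.fst (NPC.Poly.snd (NPC.Poly.snd h0)))
  have o1 := poly_oneT (poly_isB b hE hS ht (NPC.Poly.fst (NPC.Poly.snd h0)))
  have o2 := poly_oneT (poly_isB b hE hS ht (NPC.Poly.fst (NPC.Poly.snd (NPC.Poly.snd h0))))
  have o3 := poly_oneT (poly_isB b hE hS ht (NPC.Poly.snd (NPC.Poly.snd (NPC.Poly.snd h0))))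
  exact NPC.Poly.ite (NPC.Poly.decide_eq (NPC.Poly.fst h0) (NPC.Poly.const 0)) o1
    (NPC.Poly.ite (NPC.Poly.decide_eq (NPC.Poly.fst h0) (NPC.Poly.const 1))
      (poly_tadd (poly_tadd o1 o2) (poly_tneg o3))
      (poly_tadd (poly_tadd (poly_tmul o1 m2) (poly_tmul m1 o2)) (poly_tneg o3)))

theorem poly_wn' {β : Type} [TEnc β] {wn : α → ℕ → ℕ}
    (hw : NPC.Poly (fun q : α × ℕ => wn q.1 q.2)) :
    NPC.Poly (fun q : (α × β) × ℕ => wn q.1.1 q.2) :=
  hw.comp (NPC.Poly.pair (NPC.Poly.fst (NPC.Poly.fst NPC.Poly.id)) (NPC.Poly.snd NPC.Poly.id))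

end

theorem phT : S_PH := by
  intro α _ E S wn hE hS hw
  have hE' : NPC.Poly (fun q : α × ER.Con => E q.1) := hE.comp (NPC.Poly.fst NPC.Poly.id)
  have hS' : NPC.Poly (fun q : α × ER.Con => S q.1) := hS.comp (NPC.Poly.fst NPC.Poly.id)
  have hw' : NPC.Poly (fun q : (α × ER.Con) × ℕ => wn q.1.1 q.2) := poly_wn' hw
  have hc := poly_conT (wn := fun q : α × ER.Con => wn q.1) hE' hS' hw'
    (NPC.Poly.snd (f := fun q : α × ER.Con => q) NPC.Poly.id)
  refine ⟨?_, fun b t ht => ?_⟩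
  · unfold hT
    exact poly_sumT (NPC.Poly.map (F := fun a c => Tm.mul (conT (E a) (S a) (wn a) c)
      (conT (E a) (S a) (wn a) c)) hS (poly_tmul hc hc))
  · unfold dhT
    have ht' : NPC.Poly (fun q : α × ER.Con => t q.1) := ht.comp (NPC.Poly.fst NPC.Poly.id)
    have hd := poly_dconT (wn := fun q : α × ER.Con => wn q.1) b hE' hS' hw' ht'
      (NPC.Poly.snd (f := fun q : α × ER.Con => q) NPC.Poly.id)
    exact poly_sumT (NPC.Poly.map (F := fun a c => Tm.mul twoT (Tm.mul (conT (E a) (S a) (wn a) c)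
      (dconT (E a) (S a) (wn a) b (t a) c))) hS (poly_tmul (NPC.Poly.const _) (poly_tmul hc hd)))

end Pool.Agent.W193.IP
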